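import Pool.Agent.Q99.KN.Stm3
import Pool.Agent.W719.BS.LLp

/-!
# The primitive of `log (2 sin π x)` on the strip
-/

set_option autoImplicit false

namespace Pool.Agent.Q208.KN

open Finset Filter Topology MeasureTheory
open Pool.Agent.W719.BS (LL LL_half LL_sub')
open Pool.Agent.W358.BSTay (gg)
open Pool.Agent.Q99.KN

theorem St_open : IsOpen St := by
  have h : St = {x : ℂ | 0 < x.re} ∩ {x : ℂ | x.re < 1} := rfl
  rw [h]
  exact (isOpen_lt continuous_const Complex.continuous_re).inter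
    (isOpen_lt Complex.continuous_re continuous_const)

theorem sin_re_pos {x : ℂ} (hx : x ∈ St) : 0 < (2 * Complex.sin (Real.pi * x)).re := by
  have h1 : (Complex.sin (Real.pi * x)).re = Real.sin (Real.pi * x.re) * Real.cosh (Real.pi * x.im) := by
    have h2 : (Real.pi : ℂ) * x = ((Real.pi * x.re : ℝ) : ℂ) + ((Real.pi * x.im : ℝ) : ℂ) * Complex.I := by
      apply Complex.ext <;> simp
    rw [h2, Complex.sin_add_mul_I]
    simp only [Complex.add_re, Complex.mul_re, Complex.mul_im, Complex.I_re, Complex.I_im]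
    rw [← Complex.ofReal_sin, ← Complex.ofReal_cos, ← Complex.ofReal_sinh, ← Complex.ofReal_cosh]
    simp only [Complex.ofReal_re, Complex.ofReal_im]
    ring
  have h3 : (2 * Complex.sin (Real.pi * x)).re = 2 * (Complex.sin (Real.pi * x)).re := by
    simp [Complex.mul_re]
  rw [h3, h1]
  have h4 : 0 < Real.sin (Real.pi * x.re) := by
    refine Real.sin_pos_of_pos_of_lt_pi (mul_pos Real.pi_pos hx.1) ?_
    calc Real.pi * x.re < Real.pi * 1 := mul_lt_mul_of_pos_left hx.2 Real.pi_pos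
      _ = Real.pi := mul_one _
  have h5 := Real.cosh_pos (Real.pi * x.im)
  positivity

theorem sin_slit {x : ℂ} (hx : x ∈ St) : 2 * Complex.sin (Real.pi * x) ∈ Complex.slitPlane :=
  Or.inl (sin_re_pos hx)

theorem sin_ne {x : ℂ} (hx : x ∈ St) : Complex.sin (Real.pi * x) ≠ 0 := by
  intro h
  have := sin_re_pos hx
  rw [h, mul_zero] at this
  exact lt_irrefl _ this

theorem bb_hd {x : ℂ} (hx : x ∈ St) : HasDerivAt bb (ct x) x := by
  have h1 : HasDerivAt (fun x : ℂ => 2 * Complex.sin (Real.pi * x))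
      (2 * (Complex.cos (Real.pi * x) * Real.pi)) x := by
    have h2 : HasDerivAt (fun x : ℂ => (Real.pi : ℂ) * x) (Real.pi : ℂ) x := by
      simpa using (hasDerivAt_id x).const_mul (Real.pi : ℂ)
    exact h2.csin.const_mul 2
  have h3 := h1.clog (sin_slit hx)
  have h4 : ct x = 2 * (Complex.cos (Real.pi * x) * Real.pi) / (2 * Complex.sin (Real.pi * x)) := by
    unfold ct
    have := sin_ne hx
    field_simp
  rw [h4]
  exact h3

theorem bb_symm (x : ℂ) : bb (1 - x) = bb x := by
  unfold bb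
  rw [mul_sub, mul_one, Complex.sin_pi_sub]

theorem ct_cont : ContinuousOn ct St := by
  unfold ct
  refine continuousOn_const.mul (ContinuousOn.div (by fun_prop) (by fun_prop) ?_)
  intro x hx
  exact sin_ne hx

theorem bb_cont : ContinuousOn bb St := fun _ hx => (bb_hd hx).continuousAt.continuousWithinAt

theorem seg_mem {x : ℂ} (hx : x ∈ St) {t : ℝ} (h0 : 0 ≤ t) (h1 : t ≤ 1) :
    (1 / 2 + t * (x - 1 / 2) : ℂ) ∈ St := by
  have h2 : (1 / 2 + t * (x - 1 / 2) : ℂ).re = 1 / 2 + t * (x.re - 1 / 2) := by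
    simp
  constructor
  · rw [h2]
    nlinarith [hx.1, hx.2]
  · rw [h2]
    nlinarith [hx.1, hx.2]

theorem LC_hd {x : ℂ} (hx : x ∈ St) : HasDerivAt LC (bb x) x := by
  obtain ⟨r, hr, hball⟩ := Metric.isOpen_iff.1 St_open x hx
  have hcb : Metric.closedBall x (r / 2) ⊆ St :=
    (Metric.closedBall_subset_ball (by linarith)).trans hball
  -- the derivative of the integrand
  obtain ⟨F', hF'⟩ : ∃ F' : ℂ → ℝ → ℂ, F' = fun (y : ℂ) (t : ℝ) => bb (1 / 2 + t * (y - 1 / 2)) +
    (y - 1 / 2) * (ct (1 / 2 + t * (y - 1 / 2)) * t) := ⟨_, rfl⟩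
  have hcont : ContinuousOn (fun p : ℂ × ℝ => F' p.1 p.2)
      (Metric.closedBall x (r / 2) ×ˢ Set.Icc 0 1) := by
    rw [hF']
    have hmap : Set.MapsTo (fun p : ℂ × ℝ => (1 / 2 + p.2 * (p.1 - 1 / 2) : ℂ))
        (Metric.closedBall x (r / 2) ×ˢ Set.Icc 0 1) St := by
      intro p hp
      exact seg_mem (hcb hp.1) hp.2.1 hp.2.2
    have hlin : ContinuousOn (fun p : ℂ × ℝ => (1 / 2 + p.2 * (p.1 - 1 / 2) : ℂ))
        (Metric.closedBall x (r / 2) ×ˢ Set.Icc 0 1) := by fun_prop
    have h1 := bb_cont.comp hlin hmap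
    have h2 := ct_cont.comp hlin hmap
    refine h1.add (ContinuousOn.mul (by fun_prop) (h2.mul (by fun_prop)))
  obtain ⟨B, hB⟩ := ((isCompact_closedBall x (r / 2)).prod isCompact_Icc).exists_bound_of_continuousOn
    hcont
  have hsect : ∀ y ∈ Metric.closedBall x (r / 2), ContinuousOn (fun t : ℝ => F' y t)
      (Set.Icc 0 1) := by
    intro y hy
    refine hcont.comp (f := fun t : ℝ => (y, t)) (by fun_prop) fun t ht => ⟨hy, ht⟩
  have hF : ∀ y ∈ Metric.closedBall x (r / 2), ContinuousOn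
      (fun t : ℝ => (y - 1 / 2) * bb (1 / 2 + t * (y - 1 / 2))) (Set.Icc 0 1) := by
    intro y hy
    refine continuousOn_const.mul (bb_cont.comp (by fun_prop) fun t ht => ?_)
    exact seg_mem (hcb hy) ht.1 ht.2
  have hmem : Metric.closedBall x (r / 2) ∈ 𝓝 x := Metric.closedBall_mem_nhds x (by linarith)
  have hx0 : x ∈ Metric.closedBall x (r / 2) := Metric.mem_closedBall_self (by linarith)
  have hu : Set.uIoc (0 : ℝ) 1 ⊆ Set.Icc 0 1 := by
    rw [Set.uIoc_of_le zero_le_one]
    exact Set.Ioc_subset_Icc_self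
  have key := intervalIntegral.hasDerivAt_integral_of_dominated_loc_of_deriv_le
    (μ := volume) (a := 0) (b := 1) (F := fun y (t : ℝ) => (y - 1 / 2) * bb (1 / 2 + t * (y - 1 / 2)))
    (F' := F') (x₀ := x) (s := Metric.closedBall x (r / 2)) (bound := fun _ => B) hmem
    (Filter.eventually_of_mem hmem fun y hy => ((hF y hy).mono hu).aestronglyMeasurable
      measurableSet_uIoc)
    (ContinuousOn.intervalIntegrable (by rw [Set.uIcc_of_le zero_le_one]; exact hF x hx0))
    (((hsect x hx0).mono hu).aestronglyMeasurable measurableSet_uIoc)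
    (Filter.Eventually.of_forall fun t ht y hy => hB (y, t) ⟨hy, hu ht⟩)
    intervalIntegrable_const
    (Filter.Eventually.of_forall fun t ht y hy => by
      have h1 : HasDerivAt (fun y : ℂ => (1 / 2 + t * (y - 1 / 2) : ℂ)) (t : ℂ) y := by
        have h0 := (((hasDerivAt_id y).sub_const (1 / 2)).const_mul (t : ℂ)).const_add (1 / 2)
        rw [mul_one] at h0
        exact h0
      have h2 := (bb_hd (seg_mem (hcb hy) (hu ht).1 (hu ht).2)).comp y h1
      have h3 := ((hasDerivAt_id y).sub_const (1 / 2)).mul h2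
      rw [hF']
      rw [one_mul] at h3
      exact h3)
  have hval : ∫ t in (0:ℝ)..1, F' x t = bb x := by
    have h1 : ∀ t ∈ Set.uIcc (0:ℝ) 1, HasDerivAt (fun t : ℝ => (t : ℂ) * bb (1 / 2 + t * (x - 1 / 2)))
        (F' x t) t := by
      intro t ht
      rw [Set.uIcc_of_le zero_le_one] at ht
      have h2 : HasDerivAt (fun t : ℝ => (1 / 2 + t * (x - 1 / 2) : ℂ)) (x - 1 / 2) t := by
        have h0 := ((Complex.ofRealCLM.hasDerivAt (x := t)).mul_const (x - 1 / 2)).const_add (1 / 2)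
        simp only [Complex.ofRealCLM_apply, Complex.ofReal_one, one_mul] at h0
        exact h0
      have h3 := (bb_hd (seg_mem hx ht.1 ht.2)).comp t h2
      have h4 := (Complex.ofRealCLM.hasDerivAt (x := t)).mul h3
      rw [hF']
      simp only [Complex.ofRealCLM_apply, Complex.ofReal_one, one_mul] at h4
      have h5 : bb (1 / 2 + ↑t * (x - 1 / 2)) + (x - 1 / 2) * (ct (1 / 2 + ↑t * (x - 1 / 2)) * ↑t) =
        (bb ∘ fun t : ℝ => (1 / 2 + t * (x - 1 / 2) : ℂ)) t + (t : ℂ) *
          (ct (1 / 2 + ↑t * (x - 1 / 2)) * (x - 1 / 2)) := by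
        simp only [Function.comp_apply]
        ring
      simp only
      rw [h5]
      exact h4
    rw [intervalIntegral.integral_eq_sub_of_hasDerivAt h1
      (ContinuousOn.intervalIntegrable (by rw [Set.uIcc_of_le zero_le_one]; exact hsect x hx0))]
    simp
  have := key.2
  rw [hval] at this
  exact this

theorem LC_symm (x : ℂ) : LC (1 - x) = -LC x := by
  unfold LC
  rw [← intervalIntegral.integral_neg]
  refine intervalIntegral.integral_congr fun t _ => ?_
  have h1 : (1 / 2 + (t : ℂ) * (1 - x - 1 / 2)) = 1 - (1 / 2 + t * (x - 1 / 2)) := by ring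
  rw [h1, bb_symm]
  ring

theorem LC_real {x : ℝ} (h0 : 0 < x) (h1 : x < 1) : LC x = (LL x : ℝ) := by
  have h2 : LL x = ∫ t in (1 / 2 : ℝ)..x, gg t := by
    rw [← LL_sub', LL_half, sub_zero]
  have h3 : LC x = (x - 1 / 2 : ℝ) • ∫ t in (0:ℝ)..1, ((gg (1 / 2 + (x - 1 / 2) * t) : ℝ) : ℂ) := by
    unfold LC
    rw [intervalIntegral.integral_const_mul, Complex.real_smul]
    push_cast
    congr 1
    refine intervalIntegral.integral_congr fun t ht => ?_
    rw [Set.uIcc_of_le zero_le_one] at ht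
    have h4 : (1 / 2 + (t : ℂ) * (x - 1 / 2)) = ((1 / 2 + (x - 1 / 2) * t : ℝ) : ℂ) := by
      push_cast
      ring
    rw [h4]
    unfold bb gg
    have h5 : 0 < 2 * Real.sin (Real.pi * (1 / 2 + (x - 1 / 2) * t)) := by
      have h6 : 0 < 1 / 2 + (x - 1 / 2) * t := by nlinarith [ht.1, ht.2]
      have h7 : 1 / 2 + (x - 1 / 2) * t < 1 := by nlinarith [ht.1, ht.2]
      have h8 : 0 < Real.sin (Real.pi * (1 / 2 + (x - 1 / 2) * t)) := by
        refine Real.sin_pos_of_pos_of_lt_pi (mul_pos Real.pi_pos h6) ?_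
        calc Real.pi * (1 / 2 + (x - 1 / 2) * t) < Real.pi * 1 := mul_lt_mul_of_pos_left h7 Real.pi_pos
          _ = Real.pi := mul_one _
      positivity
    rw [Complex.ofReal_log h5.le]
    push_cast
    rfl
  rw [h3, intervalIntegral.smul_integral_comp_add_mul
    (fun s : ℝ => ((gg s : ℝ) : ℂ)) (x - 1 / 2) (1 / 2), h2]
  simp only [mul_zero, add_zero, mul_one]
  rw [show (1 / 2 + (x - 1 / 2) : ℝ) = x by ring]
  exact intervalIntegral.integral_ofReal

theorem task_LC : S_LC :=
  ⟨fun _ hx => LC_hd hx, fun x _ => LC_symm x, fun _ h0 h1 => LC_real h0 h1, fun _ hx => bb_hd hx,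
    fun x _ => bb_symm x⟩

end Pool.Agent.Q208.KN
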