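import Pool.Agent.Q99.KN.Stm3

/-!
# The potential near its maximum
-/

set_option autoImplicit false

namespace Pool.Agent.Q208.KN

open Finset Filter Topology MeasureTheory
open Pool.Agent.Q99.KN

theorem ct_quarter : ct (1 / 4) = Real.pi := by
  unfold ct
  have h1 : (Real.pi * (1 / 4) : ℂ) = ((Real.pi / 4 : ℝ) : ℂ) := by push_cast; ring
  have h2 : Real.sin (Real.pi / 4) ≠ 0 := by
    rw [Real.sin_pi_div_four]
    positivity
  rw [h1, ← Complex.ofReal_cos, ← Complex.ofReal_sin, Real.cos_pi_div_four,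
    ← Real.sin_pi_div_four, div_self (by exact_mod_cast h2), mul_one]

theorem ct_cont_quarter : ContinuousAt ct (1 / 4) := by
  have h2 : Complex.sin (Real.pi * (1 / 4)) ≠ 0 := by
    have h1 : (Real.pi * (1 / 4) : ℂ) = ((Real.pi / 4 : ℝ) : ℂ) := by push_cast; ring
    have h2 : Real.sin (Real.pi / 4) ≠ 0 := by
      rw [Real.sin_pi_div_four]
      positivity
    rw [h1, ← Complex.ofReal_sin]
    exact_mod_cast h2
  unfold ct
  refine continuousAt_const.mul (ContinuousAt.div ?_ ?_ h2)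
  · fun_prop
  · fun_prop

theorem near_vals : ∃ r : ℝ, 0 < r ∧ ∀ ξ ζ : ℂ, ‖ξ - 1 / 4‖ < r → ‖ζ‖ < r →
    ‖h11 ξ ζ + 4 * Real.pi‖ ≤ 1 / 4 ∧ ‖h12 ξ ζ‖ ≤ 1 / 4 ∧ ‖h22 ξ ζ + Real.pi / 2‖ ≤ 1 / 4 := by
  have hp : Tendsto (fun p : ℂ × ℂ => ct p.1) (𝓝 (1 / 4, 0)) (𝓝 (Real.pi : ℂ)) := by
    rw [← ct_quarter]
    exact ct_cont_quarter.tendsto.comp continuous_fst.continuousAt.tendsto
  have hm : Tendsto (fun p : ℂ × ℂ => ct (1 / 2 - p.2 / 2 - p.1)) (𝓝 (1 / 4, 0))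
      (𝓝 (Real.pi : ℂ)) := by
    rw [← ct_quarter]
    refine ct_cont_quarter.tendsto.comp ?_
    have : Continuous fun p : ℂ × ℂ => (1 / 2 - p.2 / 2 - p.1 : ℂ) := by fun_prop
    have h := this.tendsto (1 / 4, 0)
    have h2 : (1 / 2 - (0 : ℂ) / 2 - 1 / 4 : ℂ) = 1 / 4 := by norm_num
    rw [h2] at h
    exact h
  have hq : Tendsto (fun p : ℂ × ℂ => ct (1 / 2 + p.2 / 2 - p.1)) (𝓝 (1 / 4, 0))
      (𝓝 (Real.pi : ℂ)) := by
    rw [← ct_quarter]
    refine ct_cont_quarter.tendsto.comp ?_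
    have : Continuous fun p : ℂ × ℂ => (1 / 2 + p.2 / 2 - p.1 : ℂ) := by fun_prop
    have h := this.tendsto (1 / 4, 0)
    have h2 : (1 / 2 + (0 : ℂ) / 2 - 1 / 4 : ℂ) = 1 / 4 := by norm_num
    rw [h2] at h
    exact h
  have t11 : Tendsto (fun p : ℂ × ℂ => h11 p.1 p.2 + 4 * Real.pi) (𝓝 (1 / 4, 0)) (𝓝 0) := by
    have := (((hp.const_mul 2).add hm).add hq).neg.add_const (4 * (Real.pi : ℂ))
    refine this.congr' ?_ |>.trans (le_of_eq ?_)
    · exact Eventually.of_forall fun p => rfl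
    · congr 1
      ring
  have t12 : Tendsto (fun p : ℂ × ℂ => h12 p.1 p.2) (𝓝 (1 / 4, 0)) (𝓝 0) := by
    have := (hq.sub hm).div_const 2
    refine this.congr' ?_ |>.trans (le_of_eq ?_)
    · exact Eventually.of_forall fun p => rfl
    · congr 1
      ring
  have t22 : Tendsto (fun p : ℂ × ℂ => h22 p.1 p.2 + Real.pi / 2) (𝓝 (1 / 4, 0)) (𝓝 0) := by
    have := ((hm.add hq).neg.div_const 4).add_const ((Real.pi : ℂ) / 2)
    refine this.congr' ?_ |>.trans (le_of_eq ?_)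
    · exact Eventually.of_forall fun p => rfl
    · congr 1
      ring
  have e : ∀ {f : ℂ × ℂ → ℂ}, Tendsto f (𝓝 (1 / 4, 0)) (𝓝 0) → ∀ᶠ p in 𝓝 ((1 / 4, 0) : ℂ × ℂ),
      ‖f p‖ < 1 / 4 := by
    intro f hf
    have := hf.norm
    rw [norm_zero] at this
    exact this.eventually (gt_mem_nhds (by norm_num))
  obtain ⟨r, hr, h⟩ := Metric.eventually_nhds_iff.1 ((e t11).and ((e t12).and (e t22)))
  refine ⟨r, hr, fun ξ ζ h1 h2 => ?_⟩
  have h3 : dist ((ξ, ζ) : ℂ × ℂ) (1 / 4, 0) < r := by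
    rw [Prod.dist_eq, dist_eq_norm, dist_eq_norm, sub_zero]
    exact max_lt h1 h2
  obtain ⟨a1, a2, a3⟩ := h h3
  exact ⟨a1.le, a2.le, a3.le⟩

theorem re_mul_le {z e c : ℂ} {A : ℝ} (hc : c = (-A : ℝ) + e) (he : ‖e‖ ≤ 1 / 4) :
    (z ^ 2 * c).re ≤ -A * (z.re ^ 2 - z.im ^ 2) + (z.re ^ 2 + z.im ^ 2) / 4 := by
  have h1 : (z ^ 2 * c).re = -A * (z.re ^ 2 - z.im ^ 2) + (z ^ 2 * e).re := by
    rw [hc, mul_add, Complex.add_re]
    congr 1
    rw [mul_comm, Complex.re_ofReal_mul, sq z, Complex.mul_re]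
    ring
  have h2 : (z ^ 2 * e).re ≤ (z.re ^ 2 + z.im ^ 2) / 4 := by
    refine (Complex.re_le_norm _).trans ?_
    rw [norm_mul, norm_pow, Complex.sq_norm, Complex.normSq_apply]
    have : 0 ≤ z.re * z.re + z.im * z.im := by nlinarith [sq_nonneg z.re, sq_nonneg z.im]
    nlinarith
  rw [h1]
  linarith

/-- the quadratic form with complex arguments -/
theorem form_le {ξ ζ : ℂ} (h : ‖h11 ξ ζ + 4 * Real.pi‖ ≤ 1 / 4 ∧ ‖h12 ξ ζ‖ ≤ 1 / 4 ∧
    ‖h22 ξ ζ + Real.pi / 2‖ ≤ 1 / 4) (a b : ℂ) :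
    (a ^ 2 * h11 ξ ζ + 2 * a * b * h12 ξ ζ + b ^ 2 * h22 ξ ζ).re ≤
      -(a.re ^ 2 + b.re ^ 2) + 14 * (a.im ^ 2 + b.im ^ 2) := by
  have h1 := re_mul_le (z := a) (A := 4 * Real.pi) (c := h11 ξ ζ) (e := h11 ξ ζ + 4 * Real.pi)
    (by push_cast; ring) h.1
  have h2 := re_mul_le (z := b) (A := Real.pi / 2) (c := h22 ξ ζ) (e := h22 ξ ζ + Real.pi / 2)
    (by push_cast; ring) h.2.2
  have h3 : (2 * a * b * h12 ξ ζ).re ≤ (a.re ^ 2 + a.im ^ 2 + (b.re ^ 2 + b.im ^ 2)) / 4 := by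
    refine (Complex.re_le_norm _).trans ?_
    rw [norm_mul, norm_mul, norm_mul, Complex.norm_ofNat]
    have e1 : a.re ^ 2 + a.im ^ 2 = ‖a‖ ^ 2 := by rw [Complex.sq_norm, Complex.normSq_apply]; ring
    have e2 : b.re ^ 2 + b.im ^ 2 = ‖b‖ ^ 2 := by rw [Complex.sq_norm, Complex.normSq_apply]; ring
    rw [e1, e2]
    have := h.2.1
    have h0 : 0 ≤ 2 * ‖a‖ * ‖b‖ := by positivity
    calc 2 * ‖a‖ * ‖b‖ * ‖h12 ξ ζ‖ ≤ 2 * ‖a‖ * ‖b‖ * (1 / 4) := by gcongr
      _ ≤ _ := by nlinarith [sq_nonneg (‖a‖ - ‖b‖)]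
  rw [Complex.add_re, Complex.add_re]
  have p1 := Real.pi_gt_three
  have p2 := Real.pi_lt_d2
  have q1 := sq_nonneg a.re
  have q2 := sq_nonneg a.im
  have q3 := sq_nonneg b.re
  have q4 := sq_nonneg b.im
  nlinarith

/-- second order Taylor estimate -/
theorem taylor_re {f f' f'' : ℝ → ℝ} {B : ℝ} (h1 : ∀ t ∈ Set.Icc (0:ℝ) 1, HasDerivAt f (f' t) t)
    (h2 : ∀ t ∈ Set.Icc (0:ℝ) 1, HasDerivAt f' (f'' t) t) (h0 : f' 0 = 0)
    (hB : ∀ t ∈ Set.Icc (0:ℝ) 1, f'' t ≤ B) : f 1 ≤ f 0 + B / 2 := by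
  have c1 : ∀ t ∈ Set.Icc (0:ℝ) 1, f' t ≤ B * t := by
    have h3 : AntitoneOn (fun t => f' t - B * t) (Set.Icc 0 1) := by
      refine antitoneOn_of_hasDerivWithinAt_nonpos (f' := fun t => f'' t - B) (convex_Icc 0 1)
        (fun t ht => ((h2 t ht).continuousAt.sub (by fun_prop)).continuousWithinAt) ?_ ?_
      · intro t ht
        have ht' := interior_subset ht
        have h4 : HasDerivAt (fun t => f' t - B * t) (f'' t - B) t := by
          have h5 := (h2 t ht').sub ((hasDerivAt_id t).const_mul B)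
          rw [mul_one] at h5
          exact h5
        exact h4.hasDerivWithinAt
      · intro t ht
        have := hB t (interior_subset ht)
        linarith
    intro t ht
    have := h3 (Set.left_mem_Icc.2 zero_le_one) ht ht.1
    simp only [h0, mul_zero, sub_zero] at this
    linarith
  have h3 : AntitoneOn (fun t => f t - B * t ^ 2 / 2) (Set.Icc 0 1) := by
    refine antitoneOn_of_hasDerivWithinAt_nonpos (f' := fun t => f' t - B * t) (convex_Icc 0 1)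
      (fun t ht => ((h1 t ht).continuousAt.sub (by fun_prop)).continuousWithinAt) ?_ ?_
    · intro t ht
      have ht' := interior_subset ht
      have h4 : HasDerivAt (fun t : ℝ => B * t ^ 2 / 2) (B * t) t := by
        have := ((hasDerivAt_pow 2 t).const_mul B).div_const 2
        refine this.congr_deriv ?_
        norm_num
        ring
      exact ((h1 t ht').sub h4).hasDerivWithinAt
    · intro t ht
      have := c1 t (interior_subset ht)
      linarith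
  have := h3 (Set.left_mem_Icc.2 zero_le_one) (Set.right_mem_Icc.2 zero_le_one) zero_le_one
  simp only at this
  linarith

theorem task_HM : S_HM := by
  intro hLC hGAM hHH'
  obtain ⟨-, -, hH0, hh1, hh2, hder, -, -⟩ := hHH' hLC hGAM
  obtain ⟨r, hr, hval⟩ := near_vals
  refine ⟨min r (1 / 16), 1 / 2, 7, lt_min hr (by norm_num), min_le_right _ _, by norm_num,
    by norm_num, ?_, ?_⟩
  · intro ξ ζ hξ hζ
    have hr1 : min r (1 / 16) ≤ r := min_le_left _ _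
    have hr2 : min r (1 / 16) ≤ 1 / 16 := min_le_right _ _
    obtain ⟨a, ha⟩ : ∃ a : ℂ, a = ξ - 1 / 4 := ⟨_, rfl⟩
    have hin : ∀ t ∈ Set.Icc (0:ℝ) 1, ‖(1 / 4 + t * a) - 1 / 4‖ < min r (1 / 16) ∧
        ‖(t * ζ : ℂ)‖ < min r (1 / 16) := by
      intro t ht
      have h3 : ‖(1 / 4 + (t : ℂ) * a) - 1 / 4‖ ≤ ‖a‖ := by
        rw [add_sub_cancel_left, norm_mul, Complex.norm_real, Real.norm_eq_abs, abs_of_nonneg ht.1]
        exact mul_le_of_le_one_left (norm_nonneg _) ht.2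
      have h4 : ‖(t * ζ : ℂ)‖ ≤ ‖ζ‖ := by
        rw [norm_mul, Complex.norm_real, Real.norm_eq_abs, abs_of_nonneg ht.1]
        exact mul_le_of_le_one_left (norm_nonneg _) ht.2
      rw [ha] at h3
      rw [ha]
      exact ⟨h3.trans_lt hξ, h4.trans_lt hζ⟩
    -- derivative along the segment
    have hd : ∀ (G G' : ℂ → ℂ → ℂ) (t : ℝ), HasDerivAt (fun s : ℂ => G ((1 / 4 + t * a) + s * a)
        (t * ζ + s * ζ)) (G' (1 / 4 + t * a) (t * ζ)) 0 →
        HasDerivAt (fun s : ℝ => (G (1 / 4 + s * a) (s * ζ)).re)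
          (G' (1 / 4 + t * a) (t * ζ)).re t := by
      intro G G' t h
      have h3 : HasDerivAt (fun s : ℂ => G (1 / 4 + s * a) (s * ζ)) (G' (1 / 4 + t * a) (t * ζ))
          (t : ℂ) := by
        have h5 : HasDerivAt (fun s : ℂ => G ((1 / 4 + t * a) + s * a)
            (t * ζ + s * ζ)) (G' (1 / 4 + t * a) (t * ζ)) ((t : ℂ) - t) := by
          rw [sub_self]
          exact h
        have h4 := h5.comp_sub_const (t : ℂ) (t : ℂ)
        have h6 : (fun s : ℂ => G ((1 / 4 + t * a) + (s - t) * a) (t * ζ + (s - t) * ζ)) =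
            fun s : ℂ => G (1 / 4 + s * a) (s * ζ) := by
          funext s
          congr 1 <;> ring
        rw [h6] at h4
        exact h4
      exact h3.real_of_complex
    have hd1 : ∀ t ∈ Set.Icc (0:ℝ) 1, HasDerivAt (fun s : ℝ => (HH (1 / 4 + s * a) (s * ζ)).re)
        ((fun s : ℝ => (a * h1 (1 / 4 + s * a) (s * ζ) + ζ * h2 (1 / 4 + s * a) (s * ζ)).re) t) t := by
      intro t ht
      obtain ⟨i1, i2⟩ := hin t ht
      exact hd HH (fun x y => a * h1 x y + ζ * h2 x y) t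
        (hder _ _ (i1.trans_le hr2) (i2.trans_le hr2) a ζ).1
    have hd2 : ∀ t ∈ Set.Icc (0:ℝ) 1, HasDerivAt (fun s : ℝ =>
        (a * h1 (1 / 4 + s * a) (s * ζ) + ζ * h2 (1 / 4 + s * a) (s * ζ)).re)
        ((fun s : ℝ => (a ^ 2 * h11 (1 / 4 + s * a) (s * ζ) + 2 * a * ζ * h12 (1 / 4 + s * a) (s * ζ) +
          ζ ^ 2 * h22 (1 / 4 + s * a) (s * ζ)).re) t) t := by
      intro t ht
      obtain ⟨i1, i2⟩ := hin t ht
      have h3 := (hder _ _ (i1.trans_le hr2) (i2.trans_le hr2) a ζ).2.1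
      have h4 := (hder _ _ (i1.trans_le hr2) (i2.trans_le hr2) a ζ).2.2
      have h5 := (h3.const_mul a).add (h4.const_mul ζ)
      have h6 : a * (a * h11 (1 / 4 + t * a) (t * ζ) + ζ * h12 (1 / 4 + t * a) (t * ζ)) +
          ζ * (a * h12 (1 / 4 + t * a) (t * ζ) + ζ * h22 (1 / 4 + t * a) (t * ζ)) =
          a ^ 2 * h11 (1 / 4 + t * a) (t * ζ) + 2 * a * ζ * h12 (1 / 4 + t * a) (t * ζ) +
          ζ ^ 2 * h22 (1 / 4 + t * a) (t * ζ) := by ring
      rw [h6] at h5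
      exact hd (fun x y => a * h1 x y + ζ * h2 x y) (fun x y => a ^ 2 * h11 x y +
        2 * a * ζ * h12 x y + ζ ^ 2 * h22 x y) t h5
    have h0 : (fun s : ℝ => (a * h1 (1 / 4 + s * a) (s * ζ) + ζ * h2 (1 / 4 + s * a) (s * ζ)).re) 0 =
        0 := by
      simp only [Complex.ofReal_zero, zero_mul, add_zero]
      rw [hh1, hh2]
      simp
    have hB : ∀ t ∈ Set.Icc (0:ℝ) 1, (fun s : ℝ => (a ^ 2 * h11 (1 / 4 + s * a) (s * ζ) +
        2 * a * ζ * h12 (1 / 4 + s * a) (s * ζ) + ζ ^ 2 * h22 (1 / 4 + s * a) (s * ζ)).re) t ≤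
        -(a.re ^ 2 + ζ.re ^ 2) + 14 * (a.im ^ 2 + ζ.im ^ 2) := by
      intro t ht
      obtain ⟨i1, i2⟩ := hin t ht
      exact form_le (hval _ _ (i1.trans_le hr1) (i2.trans_le hr1)) a ζ
    have key := taylor_re hd1 hd2 h0 hB
    simp only [Complex.ofReal_zero, zero_mul, add_zero, Complex.ofReal_one, one_mul] at key
    rw [hH0, Complex.ofReal_re] at key
    have e1 : (1 / 4 : ℂ) + a = ξ := by rw [ha]; ring
    have e2 : a.re = ξ.re - 1 / 4 := by rw [ha]; simp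
    have e3 : a.im = ξ.im := by rw [ha]; simp
    rw [e1, e2, e3] at key
    linarith
  · intro ξ ζ hξ hζ a b
    have := form_le (hval ξ ζ (hξ.trans_le (min_le_left _ _)) (hζ.trans_le (min_le_left _ _)))
      (a : ℂ) (b : ℂ)
    simp only [Complex.ofReal_re, Complex.ofReal_im] at this
    linarith

end Pool.Agent.Q208.KN
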