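import Pool.Agent.Q99.KN.Stm4

/-!
# Laplace's method
-/

set_option autoImplicit false

namespace Pool.Agent.Q208.KN

open Finset Filter Topology MeasureTheory
open Pool.Agent.Q99.KN

theorem gauss_pi_integrable (ι : Type) [Fintype ι] {κ : ℝ} (hκ : 0 < κ) :
    Integrable (fun u : ι → ℝ => Real.exp (-(κ * ∑ i, u i ^ 2))) volume := by
  have h1 : Integrable (fun u : ι → ℝ => ∏ i, Real.exp (-κ * u i ^ 2)) volume :=
    Integrable.fintype_prod (f := fun _ (v : ℝ) => Real.exp (-κ * v ^ 2))
      (fun _ => integrable_exp_neg_mul_sq hκ)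
  refine h1.congr (Eventually.of_forall fun u => ?_)
  show ∏ i, Real.exp (-κ * u i ^ 2) = Real.exp (-(κ * ∑ i, u i ^ 2))
  rw [← Real.exp_sum, Finset.mul_sum, ← Finset.sum_neg_distrib]
  congr 1
  refine Finset.sum_congr rfl fun i _ => ?_
  ring

theorem smul_qmp (ι : Type) [Fintype ι] {r : ℝ} (hr : r ≠ 0) :
    Measure.QuasiMeasurePreserving (fun u : ι → ℝ => r • u) volume volume := by
  refine ⟨measurable_const_smul r, ?_⟩
  rw [Measure.map_addHaar_smul volume hr]
  exact Measure.smul_absolutelyContinuous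

theorem task_LAP : S_LAP := by
  intro ι _ κ C hκ F q hmeas hbound hlim
  have hC : 0 ≤ C := by
    obtain ⟨N, hN⟩ := hbound.exists
    have h1 := hN (fun _ => 0)
    simp only [ne_eq, OfNat.ofNat_ne_zero, not_false_eq_true, zero_pow, Finset.sum_const_zero,
      mul_zero, neg_zero, Real.exp_zero, mul_one] at h1
    exact (norm_nonneg _).trans h1
  have key : Tendsto (fun N : ℕ => ∫ u : ι → ℝ, F N fun i => u i / √N) atTop (𝓝 (∫ u, q u)) := by
    refine tendsto_integral_filter_of_dominated_convergence
      (fun u : ι → ℝ => C * Real.exp (-(κ * ∑ i, u i ^ 2))) ?_ ?_ ?_ ?_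
    · filter_upwards [hmeas, eventually_ge_atTop 1] with N hN hN1
      have hs : (0 : ℝ) < √N := Real.sqrt_pos.2 (by exact_mod_cast hN1)
      have h2 := hN.comp_quasiMeasurePreserving (smul_qmp ι (r := (√N)⁻¹) (by positivity))
      refine h2.congr (Eventually.of_forall fun u => ?_)
      show F N ((√N)⁻¹ • u) = F N fun i => u i / √N
      congr 1
      funext i
      rw [Pi.smul_apply, smul_eq_mul]
      ring
    · filter_upwards [hbound, eventually_ge_atTop 1] with N hN hN1
      refine Eventually.of_forall fun u => ?_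
      refine (hN _).trans (le_of_eq ?_)
      congr 2
      have hN0 : (0 : ℝ) < N := by exact_mod_cast hN1
      have h3 : ∑ i, (u i / √N) ^ 2 = (∑ i, u i ^ 2) / N := by
        rw [Finset.sum_div]
        refine Finset.sum_congr rfl fun i _ => ?_
        rw [div_pow, Real.sq_sqrt hN0.le]
      rw [h3]
      field_simp
    · exact (gauss_pi_integrable ι hκ).const_mul C
    · exact Eventually.of_forall fun u => hlim u
  refine key.congr' ?_
  filter_upwards [eventually_ge_atTop 1] with N hN1
  have hs : (0 : ℝ) < √N := Real.sqrt_pos.2 (by exact_mod_cast hN1)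
  have h1 := Measure.integral_comp_inv_smul_of_nonneg (volume : Measure (ι → ℝ)) (F N) hs.le
  have h2 : (fun u : ι → ℝ => F N ((√N)⁻¹ • u)) = fun u => F N fun i => u i / √N := by
    funext u
    congr 1
    funext i
    rw [Pi.smul_apply, smul_eq_mul]
    ring
  rw [h2, Module.finrank_fintype_fun_eq_card] at h1
  rw [h1, Complex.real_smul]
  push_cast
  rfl

end Pool.Agent.Q208.KN
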