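import Pool.Agent.Q99.KN.Stm3

/-!
# The discrete sum of a step in `ζ`
-/

set_option autoImplicit false

namespace Pool.Agent.Q208.KN

open Finset Filter Topology MeasureTheory
open Pool.Agent.Q99.KN

theorem zl_real (N k : ℕ) : zl N k = ((2 * (k : ℝ) + 1 - N : ℝ) : ℂ) := by
  unfold zl
  push_cast
  ring

theorem zl_abs {N k : ℕ} (hk : k < N) : |(2 * (k : ℝ) + 1 - N)| ≤ N := by
  have h1 : (k : ℝ) + 1 ≤ N := by exact_mod_cast hk
  have h2 : (0 : ℝ) ≤ k := Nat.cast_nonneg k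
  rw [abs_le]
  constructor <;> linarith

theorem ez_hd (N : ℕ) (w : ℤ) (z : ℂ) : HasDerivAt (ez N w)
    (ez N w z * (Complex.I * Real.pi * w * (2 * z) / (4 * N))) z := by
  unfold ez
  have h1 : HasDerivAt (fun z : ℂ => Complex.I * Real.pi * w * z ^ 2 / (4 * N))
      (Complex.I * Real.pi * w * (2 * z) / (4 * N)) z := by
    have := ((hasDerivAt_pow 2 z).const_mul (Complex.I * Real.pi * w)).div_const (4 * (N : ℂ))
    simpa using this
  exact h1.cexp

theorem ez_norm {N : ℕ} {w : ℤ} (x : ℝ) : ‖ez N w x‖ = 1 := by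
  unfold ez
  have : Complex.I * Real.pi * w * (x : ℂ) ^ 2 / (4 * N) =
      ((Real.pi * w * x ^ 2 / (4 * N) : ℝ) : ℂ) * Complex.I := by
    push_cast
    ring
  rw [this, Complex.norm_exp_ofReal_mul_I]

theorem sin_hd (N : ℕ) (z : ℂ) : HasDerivAt (fun z : ℂ => Complex.sin (Real.pi * z / N))
    (Complex.cos (Real.pi * z / N) * (Real.pi / N)) z := by
  have h1 : HasDerivAt (fun z : ℂ => (Real.pi * z / N : ℂ)) (Real.pi / N) z := by
    have := ((hasDerivAt_id z).const_mul (Real.pi : ℂ)).div_const (N : ℂ)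
    simpa using this
  exact h1.csin

theorem sin_norm (N : ℕ) (x : ℝ) : ‖Complex.sin (Real.pi * x / N)‖ ≤ 1 := by
  have : (Real.pi * x / N : ℂ) = ((Real.pi * x / N : ℝ) : ℂ) := by push_cast; ring
  rw [this, ← Complex.ofReal_sin, Complex.norm_real]
  exact Real.abs_sin_le_one _

theorem cos_norm (N : ℕ) (x : ℝ) : ‖Complex.cos (Real.pi * x / N)‖ ≤ 1 := by
  have : (Real.pi * x / N : ℂ) = ((Real.pi * x / N : ℝ) : ℂ) := by push_cast; ring
  rw [this, ← Complex.ofReal_cos, Complex.norm_real]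
  exact Real.abs_cos_le_one _

/-- the product rule at a lattice point -/
theorem step_zeta (w : ℤ) {N k : ℕ} (hN : 1 ≤ N) (hk : k < N) (g : ℂ → ℂ)
    (hg : DifferentiableAt ℂ g (zl N k)) :
    ‖deriv (fun z : ℂ => ez N w z * Complex.sin (Real.pi * z / N) * g z) (zl N k)‖ ≤
      (Real.pi * |(w : ℝ)| / 2 + Real.pi) * ‖g (zl N k)‖ + ‖deriv g (zl N k)‖ := by
  have h1 := ((ez_hd N w (zl N k)).mul (sin_hd N (zl N k))).mul hg.hasDerivAt
  have h2 := h1.deriv
  have h3 : deriv (fun z : ℂ => ez N w z * Complex.sin (Real.pi * z / N) * g z) (zl N k) = _ := h2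
  rw [h3]
  simp only [Pi.mul_apply]
  have hN0 : (0 : ℝ) < N := by exact_mod_cast hN
  have hN1 : (1 : ℝ) ≤ N := by exact_mod_cast hN
  have e1 : ‖ez N w (zl N k)‖ = 1 := by rw [zl_real]; exact ez_norm _
  have e2 : ‖Complex.sin (Real.pi * zl N k / N)‖ ≤ 1 := by rw [zl_real]; exact sin_norm _ _
  have e3 : ‖Complex.cos (Real.pi * zl N k / N)‖ ≤ 1 := by rw [zl_real]; exact cos_norm _ _
  have e4 : ‖Complex.I * Real.pi * w * (2 * zl N k) / (4 * N)‖ ≤ Real.pi * |(w : ℝ)| / 2 := by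
    rw [zl_real]
    simp only [norm_div, norm_mul, Complex.norm_I, Complex.norm_real, Complex.norm_intCast,
      Complex.norm_natCast, Complex.norm_ofNat, one_mul, Real.norm_eq_abs]
    rw [abs_of_pos Real.pi_pos, div_le_iff₀ (by positivity)]
    have h5 := zl_abs hk
    have h6 : Real.pi * |(w : ℝ)| * (2 * |2 * (k : ℝ) + 1 - N|) ≤ Real.pi * |(w : ℝ)| * (2 * N) := by
      have := Real.pi_pos
      gcongr
    linarith
  have e5 : ‖(Real.pi / N : ℂ)‖ ≤ Real.pi := by
    rw [norm_div, Complex.norm_real, Complex.norm_natCast, Real.norm_eq_abs, abs_of_pos Real.pi_pos]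
    exact div_le_self Real.pi_pos.le hN1
  have hw : 0 ≤ Real.pi * |(w : ℝ)| / 2 := by have := Real.pi_pos; positivity
  refine (norm_add_le _ _).trans ?_
  refine add_le_add ?_ ?_
  · rw [norm_mul]
    refine mul_le_mul_of_nonneg_right ?_ (norm_nonneg _)
    refine (norm_add_le _ _).trans (add_le_add ?_ ?_)
    · rw [norm_mul, norm_mul, e1, one_mul]
      calc _ ≤ Real.pi * |(w : ℝ)| / 2 * 1 := mul_le_mul e4 e2 (norm_nonneg _) hw
        _ = _ := mul_one _
    · rw [norm_mul, norm_mul, e1, one_mul]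
      calc _ ≤ 1 * Real.pi := mul_le_mul e3 e5 (norm_nonneg _) zero_le_one
        _ = _ := one_mul _
  · rw [norm_mul, norm_mul, e1, one_mul]
    calc _ ≤ 1 * ‖deriv g (zl N k)‖ := mul_le_mul_of_nonneg_right e2 (norm_nonneg _)
      _ = _ := one_mul _

theorem task_B0 : S_B0 := by
  intro w
  refine ⟨Real.pi * |(w : ℝ)| / 2 + Real.pi + 2, ?_⟩
  intro N hN u v M Mu hM hMu hu hv hvb hub
  refine (norm_sum_le _ _).trans ?_
  have key : ∀ k ∈ range N, ‖deriv (fun z : ℂ => ez N w z * Complex.sin (Real.pi * z / N) *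
      (u z * v z)) (zl N k)‖ ≤ (Real.pi * |(w : ℝ)| / 2 + Real.pi + 2) * M * Mu := by
    intro k hk
    have hk' : k < N := Finset.mem_range.1 hk
    have h1 := step_zeta w hN hk' (fun z => u z * v z) ((hu.mul hv) _)
    refine h1.trans ?_
    have a1 := hvb k hk'
    have a2 := hub k hk'
    have b1 : ‖v (zl N k)‖ ≤ M := by linarith [norm_nonneg (deriv v (zl N k))]
    have b2 : ‖deriv v (zl N k)‖ ≤ M := by linarith [norm_nonneg (v (zl N k))]
    have b3 : ‖u (zl N k)‖ ≤ Mu := by linarith [norm_nonneg (deriv u (zl N k))]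
    have b4 : ‖deriv u (zl N k)‖ ≤ Mu := by linarith [norm_nonneg (u (zl N k))]
    have c1 : ‖u (zl N k) * v (zl N k)‖ ≤ Mu * M := by
      rw [norm_mul]
      exact mul_le_mul b3 b1 (norm_nonneg _) hMu
    have c2 : ‖deriv (fun z => u z * v z) (zl N k)‖ ≤ Mu * M + Mu * M := by
      have : deriv (fun z => u z * v z) (zl N k) = _ :=
        ((hu (zl N k)).hasDerivAt.mul (hv (zl N k)).hasDerivAt).deriv
      rw [this]
      refine (norm_add_le _ _).trans (add_le_add ?_ ?_)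
      · rw [norm_mul]
        exact mul_le_mul b4 b1 (norm_nonneg _) hMu
      · rw [norm_mul]
        exact mul_le_mul b3 b2 (norm_nonneg _) hMu
    have hc : 0 ≤ Real.pi * |(w : ℝ)| / 2 + Real.pi := by have := Real.pi_pos; positivity
    calc _ ≤ (Real.pi * |(w : ℝ)| / 2 + Real.pi) * (Mu * M) + (Mu * M + Mu * M) :=
          add_le_add (mul_le_mul_of_nonneg_left c1 hc) c2
      _ = _ := by ring
  refine (Finset.sum_le_sum key).trans (le_of_eq ?_)
  rw [Finset.sum_const, Finset.card_range, nsmul_eq_mul]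
  ring

end Pool.Agent.Q208.KN
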