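import Pool.Agent.Q99.KN.Stm1

/-!
# The symmetry of the weights of a twist region
-/

set_option autoImplicit false

namespace Pool.Agent.Q208.KN

open Finset
open Pool.Agent.Q99.KN


theorem sn_an (N : ℕ) {f : ℂ → ℂ} (hf : Differentiable ℂ f) :
    Differentiable ℂ (fun z => sn N (f z)) := by
  unfold sn
  fun_prop

theorem bc_an (N k : ℕ) {f : ℂ → ℂ} (hf : Differentiable ℂ f) :
    Differentiable ℂ (fun z => bc N (f z) k) := by
  unfold bc
  refine Differentiable.div_const ?_ _
  refine Differentiable.fun_finsetProd fun j _ => ?_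
  exact sn_an N (hf.sub_const _)

theorem Wk_an (N A β C : ℕ) : Differentiable ℂ (fun z => Wk N z A β C) := by
  unfold Wk
  refine Differentiable.fun_sum fun b _ => ?_
  have h1 : Differentiable ℂ (fun z : ℂ => ((N : ℂ) - 1 + z) / 2) := by fun_prop
  have h2 : Differentiable ℂ (fun z : ℂ => ((N : ℂ) - 1 - z) / 2) := by fun_prop
  exact (((bc_an N A h2).mul (bc_an N C h1)).mul ((bc_an N b h1).mul (bc_an N (β - b) h2))).mul
    ((bc_an N (A + b) h1).mul (bc_an N (C + (β - b)) h2))

theorem cancel_core (N C : ℕ) (hN : 0 < N) {F : ℂ → ℂ} (hF : Differentiable ℂ F)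
    (h : ∀ z, sn N ((N - 1 + z) / 2 - C) * sn N ((N - 1 - z) / 2 - C) * F z = 0) :
    ∀ z, F z = 0 := by
  have h1 : Differentiable ℂ (fun z : ℂ => ((N : ℂ) - 1 + z) / 2 - C) := by fun_prop
  have h2 : Differentiable ℂ (fun z : ℂ => ((N : ℂ) - 1 - z) / 2 - C) := by fun_prop
  have hg : Differentiable ℂ (fun z : ℂ => sn N ((N - 1 + z) / 2 - C) *
      sn N ((N - 1 - z) / 2 - C)) := (sn_an N h1).mul (sn_an N h2)
  have hN' : (N : ℂ) ≠ 0 := Nat.cast_ne_zero.2 hN.ne'
  rcases AnalyticOnNhd.eq_zero_or_eq_zero_of_mul_eq_zero (U := Set.univ)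
    (fun z _ => hg.analyticAt z) (fun z _ => hF.analyticAt z) (fun z _ => h z)
    isPreconnected_univ with h3 | h3
  · exfalso
    have h4 := h3 (2 * N * Complex.I) (Set.mem_univ _)
    rcases mul_eq_zero.1 h4 with h5 | h5
    · unfold sn at h5
      have h6 := (mul_eq_zero.1 h5).resolve_left two_ne_zero
      rw [Complex.sin_eq_zero_iff] at h6
      obtain ⟨k, hk⟩ := h6
      have h7 : (Real.pi * (((N : ℂ) - 1 + 2 * N * Complex.I) / 2 - C) / N : ℂ) =
          ((Real.pi * ((N - 1) / 2 - C) / N : ℝ) : ℂ) + (Real.pi : ℝ) * Complex.I := by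
        push_cast
        field_simp
        ring
      rw [h7] at hk
      have h8 := congrArg Complex.im hk
      simp at h8
    · unfold sn at h5
      have h6 := (mul_eq_zero.1 h5).resolve_left two_ne_zero
      rw [Complex.sin_eq_zero_iff] at h6
      obtain ⟨k, hk⟩ := h6
      have h7 : (Real.pi * (((N : ℂ) - 1 - 2 * N * Complex.I) / 2 - C) / N : ℂ) =
          ((Real.pi * ((N - 1) / 2 - C) / N : ℝ) : ℂ) + ((-Real.pi : ℝ) : ℂ) * Complex.I := by
        push_cast
        field_simp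
        ring
      rw [h7] at hk
      have h8 := congrArg Complex.im hk
      simp at h8
  · exact fun z => h3 z (Set.mem_univ z)

theorem sy_aux (hWR : ∀ N : ℕ, 0 < N → ∀ (z : ℂ) (A β C : ℕ),
    (A + β + C + 2 < N → sn N ((N - 1 + z) / 2 - C) * sn N ((N - 1 - z) / 2 - C) *
      Wk N z A (β + 1) C =
      sn N (C + 1) ^ 2 * (Wk N z A (β + 1) (C + 1) + Wk N z A β (C + 1)) +
        sn N (C + 1) * sn N (C + 2) * Wk N z A β (C + 2)) ∧
    (A + C + 1 < N → sn N ((N - 1 + z) / 2 - C) * sn N ((N - 1 - z) / 2 - C) * Wk N z A 0 C =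
      sn N (C + 1) ^ 2 * Wk N z A 0 (C + 1)) ∧
    (A + β + C + 2 = N → sn N ((N - 1 + z) / 2 - C) * sn N ((N - 1 - z) / 2 - C) *
      Wk N z A (β + 1) C = sn N (C + 1) ^ 2 * Wk N z A β (C + 1)) ∧
    (A + C + 1 = N → sn N ((N - 1 + z) / 2 - C) * sn N ((N - 1 - z) / 2 - C) * Wk N z A 0 C =
      cz N z)) (N : ℕ) (hN : 0 < N) (A : ℕ) : ∀ n β γ C : ℕ, β + γ = n → A + β + C + γ + 1 = N →
    ∀ z : ℂ, Wk N z A β C = Wk N z A γ C := by
  intro n
  induction n using Nat.strong_induction_on with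
  | _ n ih =>
    intro β γ C hn hs
    suffices h : ∀ z : ℂ, sn N ((N - 1 + z) / 2 - C) * sn N ((N - 1 - z) / 2 - C) *
        (Wk N z A β C - Wk N z A γ C) = 0 from fun z =>
      sub_eq_zero.1 (cancel_core N C hN ((Wk_an N A β C).sub (Wk_an N A γ C)) h z)
    intro z
    rcases β with _ | β <;> rcases γ with _ | γ
    · rw [sub_self, mul_zero]
    · have e1 := (hWR N hN z A 0 C).2.1 (by omega)
      have e2 := (hWR N hN z A γ C).2.2.1 (by omega)
      have e3 := ih γ (by omega) 0 γ (C + 1) (by omega) (by omega) z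
      rw [mul_sub, e1, e2, e3, sub_self]
    · have e1 := (hWR N hN z A 0 C).2.1 (by omega)
      have e2 := (hWR N hN z A β C).2.2.1 (by omega)
      have e3 := ih β (by omega) 0 β (C + 1) (by omega) (by omega) z
      rw [mul_sub, e1, e2, e3, sub_self]
    · have e1 := (hWR N hN z A β C).1 (by omega)
      have e2 := (hWR N hN z A γ C).1 (by omega)
      have e3 := ih (β + 1 + γ) (by omega) (β + 1) γ (C + 1) (by omega) (by omega) z
      have e4 := ih (β + γ + 1) (by omega) β (γ + 1) (C + 1) (by omega) (by omega) z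
      have e5 := ih (β + γ) (by omega) β γ (C + 2) (by omega) (by omega) z
      rw [mul_sub, e1, e2, e3, e4, e5]
      ring

theorem task_SY : S_SY := by
  intro hPF hWR N hN z A β C h
  exact sy_aux (hWR hPF) N hN A _ β (N - 1 - A - β - C) C rfl (by omega) z

end Pool.Agent.Q208.KN
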