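import Pool.Agent.Q99.KN.Stm1

/-!
# The Casimir operator in the Fourier basis
-/

set_option autoImplicit false

namespace Pool.Agent.Q208.KN

open Matrix Finset
open scoped Kronecker
open Pool.Agent.H550R3.Jones (WM W irr tens)
open Pool.Agent.W715.VC (rt)
open Pool.Agent.Q191.TW (cs cs_add cs_zero cs_ne cs_neg rt_cs)
open Pool.Agent.Q191.FT (Cas lam)
open Pool.Agent.Q99.FAL
open Pool.Agent.Q99.KN

theorem cs_N' {N : ℕ} (hN : 0 < N) : cs N N = -1 := by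
  unfold cs
  have h0 : (N : ℝ) ≠ 0 := by exact_mod_cast hN.ne'
  have h1 : Real.pi * (N : ℝ) / N = Real.pi := by field_simp
  rw [h1, Complex.exp_pi_mul_I]

theorem om_add' (N : ℕ) (a b : ℤ) : om N (a + b) = om N a * om N b := by
  unfold om
  rw [← cs_add]
  congr 1
  push_cast
  ring

theorem om_neg' (N : ℕ) (a : ℤ) : om N (-a) = (om N a)⁻¹ := by
  unfold om
  rw [← cs_neg]
  congr 1
  push_cast
  ring

theorem om_ne' (N : ℕ) (a : ℤ) : om N a ≠ 0 := cs_ne _ _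

theorem two_cos (N : ℕ) (r : ℝ) : 2 * Complex.cos (Real.pi * r / N) = cs N r + (cs N r)⁻¹ := by
  rw [← cs_neg]
  unfold cs
  rw [Complex.cos]
  push_cast
  ring_nf

theorem sn_cs (N : ℕ) (r : ℝ) : sn N r = -Complex.I * (cs N r - (cs N r)⁻¹) := by
  rw [← cs_neg]
  unfold cs sn
  rw [Complex.sin]
  push_cast
  ring_nf

theorem uv_shift {N : ℕ} (i j : ℤ) (p : Fin N × Fin N) :
    uv N (i + 1) (j + 1) p = cs N (-2 * ((p.1 : ℕ) : ℝ) - 2 * ((p.2 : ℕ) : ℝ)) * uv N i j p := by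
  unfold uv ph
  rw [← cs_add, ← cs_add, ← cs_add]
  congr 1
  push_cast
  ring

theorem rt_W {N : ℕ} (hN : 0 < N) (p : Fin N × Fin N) :
    rt N ^ ((W (rt N) N).wt p + 1) =
      (cs N 1)⁻¹ * cs N (-2 * ((p.1 : ℕ) : ℝ) - 2 * ((p.2 : ℕ) : ℝ)) := by
  have h : (W (rt N) N).wt p = ((N : ℤ) - 1 - 2 * ((p.1 : ℕ) : ℤ)) +
    ((N : ℤ) - 1 - 2 * ((p.2 : ℕ) : ℤ)) := rfl
  rw [h, rt_cs, ← cs_neg, ← cs_add]
  have h2 : ((((N : ℤ) - 1 - 2 * ((p.1 : ℕ) : ℤ)) + ((N : ℤ) - 1 - 2 * ((p.2 : ℕ) : ℤ)) + 1 : ℤ) : ℝ) =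
    N + N + (-1 + (-2 * ((p.1 : ℕ) : ℝ) - 2 * ((p.2 : ℕ) : ℝ))) := by
    push_cast
    ring
  rw [h2, cs_add, cs_add, cs_N' hN]
  ring

theorem lam_uv {N : ℕ} (hN : 0 < N) (i j : ℤ) (p : Fin N × Fin N) :
    lam (rt N) ((W (rt N) N).wt p + 1) * uv N i j p =
      (cs N 1)⁻¹ * uv N (i + 1) (j + 1) p + cs N 1 * uv N (i - 1) (j - 1) p := by
  unfold lam
  rw [_root_.zpow_neg, rt_W hN, uv_shift]
  have h := uv_shift (i - 1) (j - 1) p
  rw [sub_add_cancel, sub_add_cancel] at h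
  rw [h]
  have h1 := cs_ne N 1
  have h2 := cs_ne N (-2 * ((p.1 : ℕ) : ℝ) - 2 * ((p.2 : ℕ) : ℝ))
  generalize cs N (-2 * ((p.1 : ℕ) : ℝ) - 2 * ((p.2 : ℕ) : ℝ)) = c at *
  field_simp

theorem cas_uv (hEU : S_EU) (N : ℕ) (hN : 0 < N) (k l : ℤ) (p : Fin N × Fin N) :
    (Cas (rt N) (W (rt N) N) *ᵥ uv N k l) p =
      (2 * Complex.cos (Real.pi * (2 * ((k : ℂ) - l) + 1) / N)) * uv N k l p +
      sn N (k - l) ^ 2 * (cs N 1 * uv N (k - 1) l p + (cs N 1)⁻¹ * uv N k (l + 1) p) -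
      (sn N (k - l) * sn N (k - l - 1)) * uv N (k - 1) (l + 1) p := by
  unfold Cas
  have hF1 := (hEU N hN k l).2
  have hF2 := (hEU N hN k (l + 1)).2
  have hF3 := (hEU N hN (k + 1) (l + 1)).2
  rw [add_sub_cancel_right] at hF2 hF3
  rw [add_sub_cancel_right] at hF3
  have hd : ((diagonal fun i => lam (rt N) ((W (rt N) N).wt i + 1)) *ᵥ uv N k l) p =
      (cs N 1)⁻¹ * uv N (k + 1) (l + 1) p + cs N 1 * uv N (k - 1) (l - 1) p := by
    rw [mulVec_diagonal, lam_uv hN]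
  rw [add_mulVec, Pi.add_apply, hd, ← mulVec_mulVec, (hEU N hN k l).1]
  simp only [mulVec_smul, mulVec_sub, mulVec_add, hF1, hF2, hF3, Pi.smul_apply, Pi.add_apply,
    Pi.sub_apply, smul_eq_mul]
  have hg : cs N (1 / 2) ≠ 0 := cs_ne _ _
  have hX : cs N k ≠ 0 := cs_ne _ _
  have hY : cs N l ≠ 0 := cs_ne _ _
  have e1 : cs N (-(1 / 2)) = (cs N (1 / 2))⁻¹ := cs_neg _ _
  have e2 : cs N 1 = cs N (1 / 2) ^ 2 := by
    rw [sq, ← cs_add]
    norm_num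
  have e3 : om N 1 = cs N (1 / 2) ^ 4 := by
    unfold om
    have : (2 * ((1 : ℤ) : ℝ)) = 1 / 2 + 1 / 2 + (1 / 2 + 1 / 2) := by norm_num
    rw [this, cs_add, cs_add]
    ring
  have e4 : om N k = cs N k ^ 2 := by
    unfold om
    rw [sq, ← cs_add]
    congr 1
    ring
  have e5 : om N l = cs N l ^ 2 := by
    unfold om
    rw [sq, ← cs_add]
    congr 1
    ring
  have e6 : om N (1 - l) = cs N (1 / 2) ^ 4 * (cs N l ^ 2)⁻¹ := by
    rw [sub_eq_add_neg, om_add', om_neg', e3, e5]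
  have e7 : om N (-k) = (cs N k ^ 2)⁻¹ := by rw [om_neg', e4]
  have e8 : om N (-l) = (cs N l ^ 2)⁻¹ := by rw [om_neg', e5]
  have e9 : om N (-1 - k) = (cs N (1 / 2) ^ 4)⁻¹ * (cs N k ^ 2)⁻¹ := by
    rw [sub_eq_add_neg, om_add', om_neg', om_neg', e3, e4]
  have e10 : om N (l + 1) = cs N l ^ 2 * cs N (1 / 2) ^ 4 := by rw [om_add', e3, e5]
  have e11 : om N (k + 1) = cs N k ^ 2 * cs N (1 / 2) ^ 4 := by rw [om_add', e3, e4]
  have e12 : cs N ((k : ℝ) - l) = cs N k * (cs N l)⁻¹ := by rw [sub_eq_add_neg, cs_add, cs_neg]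
  have s1 : sn N ((k : ℂ) - l) = -Complex.I * (cs N k * (cs N l)⁻¹ - cs N l * (cs N k)⁻¹) := by
    have := sn_cs N ((k : ℝ) - l)
    rw [e12, mul_inv, inv_inv] at this
    push_cast at this
    rw [this]
    ring
  have s2 : sn N ((k : ℂ) - l - 1) = -Complex.I * (cs N k * (cs N l)⁻¹ * (cs N (1 / 2) ^ 2)⁻¹ -
      cs N l * (cs N k)⁻¹ * cs N (1 / 2) ^ 2) := by
    have := sn_cs N ((k : ℝ) - l - 1)
    rw [sub_eq_add_neg ((k : ℝ) - l) 1, cs_add, e12, cs_neg, e2, mul_inv, mul_inv, inv_inv, inv_inv]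
      at this
    push_cast at this
    rw [← sub_eq_add_neg] at this
    rw [this]
    ring
  have s3 : 2 * Complex.cos (Real.pi * (2 * ((k : ℂ) - l) + 1) / N) =
      (cs N k * (cs N l)⁻¹) ^ 2 * cs N (1 / 2) ^ 2 +
      (cs N l * (cs N k)⁻¹) ^ 2 * (cs N (1 / 2) ^ 2)⁻¹ := by
    have h : cs N (2 * ((k : ℝ) - l) + 1) = (cs N k * (cs N l)⁻¹) ^ 2 * cs N (1 / 2) ^ 2 := by
      rw [cs_add, two_mul, cs_add, e12, e2]
      ring
    have := two_cos N (2 * ((k : ℝ) - l) + 1)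
    rw [h] at this
    push_cast at this
    rw [this]
    field_simp
  rw [e1, e2, e4, e5, e6, e7, e8, e9, e10, e11, s1, s2, s3]
  generalize cs N (1 / 2) = g at *
  generalize cs N k = X at *
  generalize cs N l = Y at *
  have hI : Complex.I ^ 2 = -1 := Complex.I_sq
  field_simp
  simp only [hI]
  ring

theorem nu_sub (N : ℕ) (s : ℤ) : nu N (s - 1) = -cs N 1 * nu N s := by
  unfold nu
  have h0 : rt N ≠ 0 := Complex.exp_ne_zero _
  have h1 : rt N = cs N 1 := by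
    have := rt_cs N 1
    rw [zpow_one] at this
    exact_mod_cast this
  rw [_root_.zpow_sub_one₀ (neg_ne_zero.2 (inv_ne_zero h0)), inv_neg, inv_inv, h1]
  ring

theorem nu_add (N : ℕ) (s : ℤ) : nu N (s + 1) = -(cs N 1)⁻¹ * nu N s := by
  unfold nu
  have h0 : rt N ≠ 0 := Complex.exp_ne_zero _
  have h1 : rt N = cs N 1 := by
    have := rt_cs N 1
    rw [zpow_one] at this
    exact_mod_cast this
  rw [_root_.zpow_add_one₀ (neg_ne_zero.2 (inv_ne_zero h0)), h1]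
  ring

theorem task_CU : S_CU := by
  intro hEU N hN k l
  funext p
  unfold Uv
  simp only [mulVec_smul, Pi.smul_apply, Pi.add_apply, Pi.sub_apply, smul_eq_mul]
  rw [cas_uv hEU N hN, show k - 1 + l = k + l - 1 by ring, show k + (l + 1) = k + l + 1 by ring,
    show k - 1 + (l + 1) = k + l by ring, nu_sub, nu_add]
  ring

end Pool.Agent.Q208.KN
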