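import Mathlib

/-!
# Hermite interpolation with simple derivatives
-/

set_option autoImplicit false

namespace Pool.Agent.Q208.KN

open Polynomial Finset

theorem hi_core (s : Finset ℂ) (a b : ℂ → ℂ) : ∃ p : Polynomial ℂ, ∀ x ∈ s,
    p.eval x = a x ∧ p.derivative.eval x = b x := by
  induction s using Finset.induction_on with
  | empty => exact ⟨0, fun x hx => absurd hx (Finset.notMem_empty x)⟩
  | insert x₀ s hx₀ ih =>
    obtain ⟨p, hp⟩ := ih
    obtain ⟨M, hM⟩ : ∃ M : Polynomial ℂ, M = ∏ x ∈ s, (X - C x) ^ 2 := ⟨_, rfl⟩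
    have h0 : M.eval x₀ ≠ 0 := by
      rw [hM, eval_prod]
      refine Finset.prod_ne_zero_iff.2 fun x hx => ?_
      rw [eval_pow, eval_sub, eval_X, eval_C]
      refine pow_ne_zero 2 (sub_ne_zero.2 ?_)
      rintro rfl
      exact hx₀ hx
    have h1 : ∀ x ∈ s, M.eval x = 0 ∧ M.derivative.eval x = 0 := by
      intro x hx
      obtain ⟨N, hN⟩ : ∃ N : Polynomial ℂ, M = (X - C x) ^ 2 * N := by
        rw [hM]
        exact Finset.dvd_prod_of_mem (fun x => (X - C x) ^ 2) hx
      rw [hN]
      constructor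
      · simp
      · simp [derivative_mul, derivative_pow]
    obtain ⟨c, hc⟩ : ∃ c, c = (a x₀ - p.eval x₀) / M.eval x₀ := ⟨_, rfl⟩
    obtain ⟨d, hd⟩ : ∃ d, d = (b x₀ - p.derivative.eval x₀ - M.derivative.eval x₀ * c) / M.eval x₀ :=
      ⟨_, rfl⟩
    refine ⟨p + M * (C c + C d * (X - C x₀)), fun x hx => ?_⟩
    have e1 : (p + M * (C c + C d * (X - C x₀))).eval x =
        p.eval x + M.eval x * (c + d * (x - x₀)) := by
      simp
    have e2 : (p + M * (C c + C d * (X - C x₀))).derivative.eval x =
        p.derivative.eval x + (M.derivative.eval x * (c + d * (x - x₀)) + M.eval x * d) := by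
      simp [derivative_mul]
    rw [e1, e2]
    rcases Finset.mem_insert.1 hx with rfl | hx
    · rw [hd, hc]
      constructor
      · field_simp
        ring
      · field_simp
        ring
    · rw [(hp x hx).1, (hp x hx).2, (h1 x hx).1, (h1 x hx).2]
      constructor <;> ring

end Pool.Agent.Q208.KN
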