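import Pool.Agent.Q99.KN.Stm1
import Pool.Agent.Q208.KN.HIcore

/-!
# Job KN-HI of helper99's project
-/

set_option autoImplicit false

namespace Pool.Agent.Q208.KN

theorem task_HI : Pool.Agent.Q99.KN.S_HI := hi_core

end Pool.Agent.Q208.KN
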